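import Pool.Agent.H752R3.ScaleBasics

/-!
Under the continuum hypothesis there is a `cFin`-scale which is a Menger space.
-/

namespace Pool.Agent.Results.MP_1b3842_gt.MengerScaleCH

open Set Filter Cardinal

/-- The infinite sets of natural numbers, each identified with its increasing enumeration; a subset
of the Baire space `ℕ → ℕ`. -/
def InfSets : Set (ℕ → ℕ) := {a | StrictMono a}

/-- `a ≤* b`. -/
def LeStar (a b : ℕ → ℕ) : Prop := ∀ᶠ n in atTop, a n ≤ b n

/-- `a ≤^∞ b`. -/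
def LeInf (a b : ℕ → ℕ) : Prop := ∃ᶠ n in atTop, a n ≤ b n

/-- The bounding number: the least cardinality of a `≤*`-unbounded subset of `[ℕ]^ω`. -/
noncomputable def bNumber : Cardinal.{0} :=
  sInf {κ | ∃ B : Set (ℕ → ℕ), B ⊆ InfSets ∧ #B = κ ∧ ¬ ∃ g ∈ InfSets, ∀ f ∈ B, LeStar f g}

/-- `X ⊆ [ℕ]^ω` is a `cFin`-scale. -/
def IsCFinScale (X : Set (ℕ → ℕ)) : Prop :=
  X ⊆ InfSets ∧ bNumber ≤ #X ∧
    ∀ b ∈ InfSets, ∃ c ∈ InfSets, LeInf b c ∧ #{x : ℕ → ℕ | x ∈ X ∧ ¬ LeStar c x} < bNumber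

/-- The Menger property: for every sequence of open covers there are finite subfamilies such that
every point is covered by infinitely many of them. -/
def IsMenger (Y : Type*) [TopologicalSpace Y] : Prop :=
  ∀ U : ℕ → Set (Set Y), (∀ n, (∀ u ∈ U n, IsOpen u) ∧ ⋃₀ U n = Set.univ) →
    ∃ F : ℕ → Set (Set Y), (∀ n, F n ⊆ U n ∧ (F n).Finite) ∧
      ∀ y, ∃ᶠ n in atTop, y ∈ ⋃₀ F n

open Pool.Agent.H752R3 in
/-- Under CH some `cFin`-scale is Menger (as a subspace of the Baire space). -/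
theorem result (CH : (ℵ₁ : Cardinal.{0}) = 𝔠) :
    ∃ X : Set (ℕ → ℕ), IsCFinScale X ∧ IsMenger X := by
  classical
  obtain ⟨f, c, hub, hle, hmen⟩ := exists_generic_family CH
  have hne : Nonempty (ℵ₁ : Cardinal.{0}).ord.ToType := by
    rw [← Cardinal.mk_ne_zero_iff, Cardinal.mk_ord_toType]
    exact (Cardinal.aleph_pos 1).ne'
  set S : Set Cardinal.{0} :=
    {κ | ∃ B : Set (ℕ → ℕ), B ⊆ InfSets ∧ #B = κ ∧ ¬ ∃ g ∈ InfSets, ∀ f ∈ B, LeStar f g} with hS
  have hInf : #InfSets ∈ S := by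
    refine ⟨InfSets, Subset.rfl, rfl, ?_⟩
    rintro ⟨g, hg, hb⟩
    have hg' : StrictMono g := hg
    have h1 : (fun n => g n + 1) ∈ InfSets := by
      intro m n hmn
      have := hg' hmn
      show g m + 1 < g n + 1
      omega
    obtain ⟨N, hN⟩ := eventually_atTop.1 (hb _ h1)
    have := hN N (le_refl _)
    omega
  have hb1 : (ℵ₁ : Cardinal.{0}) ≤ bNumber := by
    apply le_csInf ⟨_, hInf⟩
    rintro κ ⟨B, hB1, rfl, hB2⟩
    by_contra hlt
    have hcB : B.Countable := countable_of_lt_aleph1 (not_le.1 hlt)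
    obtain ⟨g, hg1, hg2⟩ := exists_bound_of_countable hcB (fun f hf => hB1 hf)
    exact hB2 ⟨g, hg1, hg2⟩
  have hb2 : bNumber ≤ 𝔠 := by
    refine (csInf_le' hInf).trans ?_
    refine (Cardinal.mk_set_le _).trans ?_
    simp
  refine ⟨range fun a => psum (f a), ⟨?_, ?_, ?_⟩, ?_⟩
  · rintro _ ⟨a, rfl⟩
    exact psum_strictMono _
  · -- cardinality
    rw [← CH] at hb2
    refine hb2.trans ?_
    by_contra hlt
    have hcB : (range fun a => psum (f a)).Countable := countable_of_lt_aleph1 (not_le.1 hlt)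
    obtain ⟨g, hg1, hg2⟩ := exists_bound_of_countable hcB (by
      rintro _ ⟨a, rfl⟩
      exact psum_strictMono _)
    obtain ⟨a, ha⟩ := hub (fun n => g n + 1)
    have h1 := hle a a (le_refl _)
    have h2 : ∀ᶠ n in atTop, psum (f a) n ≤ g n := hg2 _ ⟨a, rfl⟩
    obtain ⟨n, hn, h3, h4⟩ := (ha.and_eventually (h1.and h2)).exists
    have h5 := le_psum (f a) (le_refl n)
    omega
  · intro b hb
    obtain ⟨a, ha⟩ := hub b
    obtain ⟨d, hd1, hd2, hd3⟩ := exists_strictMono_between hb ha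
    refine ⟨d, hd1, hd2, lt_of_le_of_lt ?_ (lt_of_lt_of_le (Cardinal.aleph0_lt_aleph_one) hb1)⟩
    rw [Cardinal.mk_le_aleph0_iff, Set.countable_coe_iff]
    refine ((countable_Iio_omega1 a).image fun a => psum (f a)).mono ?_
    rintro _ ⟨⟨a', rfl⟩, hx⟩
    refine ⟨a', ?_, rfl⟩
    by_contra hcon
    exact hx (hd3 _ (hle a a' (not_lt.1 hcon)))
  · intro U hU
    exact menger_of_family f psum continuous_psum hmen U hU

end Pool.Agent.Results.MP_1b3842_gt.MengerScaleCH
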